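import Pool.Agent.Helper68.BB.ZDefs
import Pool.Agent.Helper68.BB.Main
import Pool.Agent.Helper87.FF.Defs
import Pool.Agent.Helper87.FF.Embed
import Pool.Agent.Helper87.FF.FT
import Pool.Agent.Helper87.FF.Split
import Pool.Agent.Helper87.FF.NotSplit
import Pool.Agent.Helper93.FF.Ends
import Pool.Agent.Helper93.FF.Action

set_option autoImplicit false

open Set Topology
open Pool.Agent.Helper68.BB Pool.Agent.Helper87.FF

namespace Pool.Agent.Results.MP_ff8665_gt.TwoEndedSplitting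

/-- a homeomorphic copy of a Bestvina boundary is a Bestvina boundary -/
lemma transport {G : Type} [Group G] {B B' : Type} [TopologicalSpace B] [TopologicalSpace B']
    (h : IsBestvinaBoundary G B) (e : B' ≃ₜ B) : IsBestvinaBoundary G B' := by
  obtain ⟨X, m, Z, a, hZ, ⟨f⟩⟩ := h
  exact ⟨X, m, Z, a, hZ, ⟨e.trans f⟩⟩

/-- the tree of the free group embeds in a Euclidean space -/
lemma emb {α : Type} [DecidableEq α] [Fintype α] (a0 : α) :
    ∃ (n : ℕ) (i : (FT a0).TH → (Fin n → ℝ)), Continuous i ∧ Function.Injective i := by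
  obtain ⟨col, hcol⟩ := FT_color a0
  obtain ⟨w, hw0, hws, hw⟩ := FT_weight a0
  exact exists_embedding (FT a0) col hcol w hw0 hws hw

/-- the free group acts well on its tree -/
lemma good {α : Type} [DecidableEq α] [Fintype α] (a0 : α) :
    ∃ _ : MulAction (FreeGroup α) ↥(RTree.Fi (FT a0)), RTree.GoodAction (FreeGroup α) (FT a0) := by
  apply Pool.Agent.Helper93.FF.exists_goodAction (FT a0) (FT_edge a0)
  intro γ h
  have h2 : γ ^ 2 = 1 ^ 2 := by rw [one_pow, pow_two, h]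
  exact pow_left_injective (M := FreeGroup α) two_ne_zero h2

/-- the boundary of a product of free groups -/
lemma bdry {α β : Type} [DecidableEq α] [Fintype α] [DecidableEq β] [Fintype β] (a0 : α) (b0 : β) :
    IsBestvinaBoundary (FreeGroup α × FreeGroup β)
      (OnePoint (↥(RTree.En (FT a0)) × ↥(RTree.En (FT b0)) × ↥(Ioo (0 : ℝ) 1))) := by
  obtain ⟨m1, h1⟩ := good a0
  obtain ⟨m2, h2⟩ := good b0
  exact RTree.bestvina_prod h1 h2 (emb a0) (emb b0)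

/-- The groups `F₂ × ℤ` and `F₂ × F₂` have a common Bestvina boundary, the first one splits over a
two-ended subgroup and the second one does not. -/
theorem result : ∃ (B : Type) (_ : TopologicalSpace B),
    IsBestvinaBoundary (FreeGroup (Fin 2) × FreeGroup (Fin 1)) B ∧
    IsBestvinaBoundary (FreeGroup (Fin 2) × FreeGroup (Fin 2)) B ∧
    SplitsOverTwoEnded (FreeGroup (Fin 2) × FreeGroup (Fin 1)) ∧
    ¬ SplitsOverTwoEnded (FreeGroup (Fin 2) × FreeGroup (Fin 2)) := by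
  obtain ⟨lab2, hl2, hz2⟩ := FT_label (0 : Fin 2) (Fin 3) 0 (by simp)
  obtain ⟨lab1, hl1, hz1⟩ := FT_label (0 : Fin 1) (Fin 1) 0 (by simp)
  obtain ⟨e2⟩ := Pool.Agent.Helper93.FF.enProd (FT (0 : Fin 2)) 0 lab2 hl2 hz2
  obtain ⟨e1⟩ := Pool.Agent.Helper93.FF.enUnique (FT (0 : Fin 1)) lab1 hl1
  set E2 := ↥(RTree.En (FT (0 : Fin 2)))
  set E1 := ↥(RTree.En (FT (0 : Fin 1)))
  have f1 : (E2 × E1 × ↥(Ioo (0 : ℝ) 1)) ≃ₜ E2 × Unit × ↥(Ioo (0 : ℝ) 1) :=
    (Homeomorph.refl E2).prodCongr (e1.prodCongr (Homeomorph.refl _))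
  have f2 : (E2 × Unit × ↥(Ioo (0 : ℝ) 1)) ≃ₜ E2 × ↥(Ioo (0 : ℝ) 1) :=
    (Homeomorph.refl E2).prodCongr (Homeomorph.punitProd _)
  have f3 : (E2 × ↥(Ioo (0 : ℝ) 1)) ≃ₜ (E2 × E2) × ↥(Ioo (0 : ℝ) 1) :=
    e2.symm.prodCongr (Homeomorph.refl _)
  have f4 : ((E2 × E2) × ↥(Ioo (0 : ℝ) 1)) ≃ₜ E2 × E2 × ↥(Ioo (0 : ℝ) 1) :=
    Homeomorph.prodAssoc _ _ _
  have f : (E2 × E1 × ↥(Ioo (0 : ℝ) 1)) ≃ₜ (E2 × E2 × ↥(Ioo (0 : ℝ) 1)) :=
    ((f1.trans f2).trans f3).trans f4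
  exact ⟨OnePoint (E2 × E1 × ↥(Ioo (0 : ℝ) 1)), inferInstance, bdry 0 0,
    transport (bdry 0 0) f.onePointCongr, splits, not_splits⟩

end Pool.Agent.Results.MP_ff8665_gt.TwoEndedSplitting
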